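import Pool.Agent.Helper6.SymW.Coeff

set_option autoImplicit false

namespace Pool.Agent.Helper6.MatSym

open Equiv Finset MvPolynomial Pool.Agent.Helper6.SymW

/-- the coefficients of the power of a linear form -/
theorem coeff_pow_gen {d : ℕ} (l : Fin d × Fin d → ℂ) (m : Fin d × Fin d →₀ ℕ)
    (hm : ∑ p, m p = d) :
    coeff m ((∑ p, C (l p) * X p) ^ d) = (Nat.multinomial univ m : ℂ) * ∏ p, l p ^ m p := by
  classical
  rw [Finset.sum_pow_eq_sum_piAntidiag, coeff_sum]
  have key : ∀ k : Fin d × Fin d → ℕ,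
      coeff m ((Nat.multinomial univ k : MvPolynomial (Fin d × Fin d) ℂ) *
        ∏ p, (C (l p) * X p) ^ k p) =
      if k = m then (Nat.multinomial univ k : ℂ) * ∏ p, l p ^ k p else 0 := by
    intro k
    have h1 : ∏ p, ((C (l p) * X p) ^ k p : MvPolynomial (Fin d × Fin d) ℂ) =
        C (∏ p, l p ^ k p) * monomial (∑ p, Finsupp.single p (k p)) 1 := by
      rw [monomial_sum_one, map_prod, ← prod_mul_distrib]
      refine prod_congr rfl fun p _ => ?_
      rw [mul_pow, X_pow_eq_monomial, map_pow]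
    have h2 : ((Nat.multinomial univ k : ℕ) : MvPolynomial (Fin d × Fin d) ℂ) =
        C (Nat.multinomial univ k : ℂ) := by
      simp
    rw [h1, h2, ← mul_assoc, ← map_mul, coeff_C_mul, coeff_monomial]
    have h3 : (∑ p, Finsupp.single p (k p) : Fin d × Fin d →₀ ℕ) = m ↔ k = m := by
      constructor
      · intro h
        funext q
        rw [← h, Finsupp.finsetSum_apply]
        simp [Finsupp.single_apply]
      · intro h
        ext q
        rw [Finsupp.finsetSum_apply, ← h]
        simp [Finsupp.single_apply]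
    by_cases hk : k = m
    · rw [if_pos (h3.2 hk), if_pos hk, mul_one]
    · rw [if_neg (fun h => hk (h3.1 h)), if_neg hk, mul_zero]
  rw [sum_congr rfl fun k _ => key k, Finset.sum_ite_eq' _ (m : Fin d × Fin d → ℕ)]
  rw [if_pos]
  rw [Finset.mem_piAntidiag]
  exact ⟨hm, fun _ _ => mem_univ _⟩

/-- the coefficients of the generic determinant -/
theorem coeff_det_zero {d : ℕ} (m : Fin d × Fin d →₀ ℕ) (hm : ∀ τ : Perm (Fin d), pm τ ≠ m) :
    coeff m (Matrix.of fun i j : Fin d =>
      (X (i, j) : MvPolynomial (Fin d × Fin d) ℂ)).det = 0 := by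
  classical
  rw [Matrix.det_apply, coeff_sum]
  refine sum_eq_zero fun τ _ => ?_
  have h1 : ∏ i, (Matrix.of fun i j : Fin d =>
      (X (i, j) : MvPolynomial (Fin d × Fin d) ℂ)) (τ i) i = monomial (pm τ) 1 := by
    unfold pm
    rw [monomial_sum_one]
    rfl
  rw [h1]
  have h2 : (Perm.sign τ • (monomial (pm τ) (1 : ℂ)) : MvPolynomial (Fin d × Fin d) ℂ) =
      C ((Perm.sign τ : ℤ) : ℂ) * monomial (pm τ) 1 := by
    rcases Int.units_eq_one_or (Perm.sign τ) with h | h <;> rw [h] <;> simp
  rw [h2, coeff_C_mul, coeff_monomial, if_neg (hm τ), mul_zero]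

/-- the monomial with one variable `(i, u)` and the variables `(σ j, j)`, `j ≠ v` -/
noncomputable def mn {d : ℕ} (u v i : Fin d) (σ : Perm (Fin d)) : Fin d × Fin d →₀ ℕ :=
  Finsupp.single (i, u) 1 + ∑ j ∈ univ.erase v, Finsupp.single (σ j, j) 1

theorem mn_sum {d : ℕ} (u v i : Fin d) (σ : Perm (Fin d)) : ∑ p, mn u v i σ p = d := by
  classical
  have h1 : ∀ a : Fin d × Fin d →₀ ℕ, ∑ p, a p = a.sum fun _ n => n := by
    intro a
    rw [Finsupp.sum_fintype]
    intro _
    rfl
  rw [h1]
  unfold mn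
  rw [Finsupp.sum_add_index' (fun _ => rfl) (fun _ _ _ => rfl), Finsupp.sum_single_index rfl,
    ← Finsupp.sum_finsetSum_index (fun _ => rfl) (fun _ _ _ => rfl)]
  simp only [Finsupp.sum_single_index]
  rw [sum_const, card_erase_of_mem (mem_univ _), card_univ, Fintype.card_fin, smul_eq_mul,
    mul_one]
  have : 0 < d := v.pos
  omega

theorem mn_prod {d : ℕ} (l : Fin d × Fin d → ℂ) (u v i : Fin d) (σ : Perm (Fin d)) :
    ∏ p, l p ^ mn u v i σ p = l (i, u) * ∏ j ∈ univ.erase v, l (σ j, j) := by
  classical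
  have h1 : ∀ a : Fin d × Fin d →₀ ℕ, ∏ p, l p ^ a p = a.prod fun p n => l p ^ n := by
    intro a
    rw [Finsupp.prod_fintype]
    intro _
    exact pow_zero _
  have h2 : ∀ q : Fin d × Fin d, (Finsupp.single q 1).prod (fun p n => l p ^ n) = l q := by
    intro q
    rw [Finsupp.prod_single_index (h := fun p n => l p ^ n) (pow_zero _), pow_one]
  have h3 : ∀ s : Finset (Fin d), (∑ j ∈ s, Finsupp.single (σ j, j) 1).prod
      (fun p n => l p ^ n) = ∏ j ∈ s, l (σ j, j) := by
    intro s
    induction s using Finset.induction_on with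
    | empty => simp
    | insert a s ha ih =>
      rw [sum_insert ha, prod_insert ha, Finsupp.prod_add_index' (h := fun p n => l p ^ n)
        (fun _ => pow_zero _) (fun _ _ _ => pow_add _ _ _), ih, h2]
  rw [h1]
  unfold mn
  rw [Finsupp.prod_add_index' (h := fun p n => l p ^ n) (fun _ => pow_zero _)
    (fun _ _ _ => pow_add _ _ _), h2, h3]

theorem mn_self {d : ℕ} (v : Fin d) (σ : Perm (Fin d)) : mn v v (σ v) σ = pm σ := by
  classical
  unfold mn pm
  rw [add_sum_erase _ (fun j => Finsupp.single (σ j, j) 1) (mem_univ v)]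

theorem mn_apply {d : ℕ} (u v i : Fin d) (σ : Perm (Fin d)) (a b : Fin d) :
    mn u v i σ (a, b) = (if i = a ∧ u = b then 1 else 0) +
      if b ≠ v ∧ σ b = a then 1 else 0 := by
  classical
  unfold mn
  rw [Finsupp.add_apply, Finsupp.single_apply, Finsupp.finsetSum_apply]
  congr 1
  · simp only [Prod.mk.injEq]
  · simp only [Finsupp.single_apply, Prod.mk.injEq]
    by_cases hb : b = v
    · rw [if_neg (fun h => h.1 hb)]
      refine sum_eq_zero fun j hj => ?_
      rw [if_neg]
      rintro ⟨-, h⟩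
      exact (mem_erase.1 hj).1 (h.trans hb)
    · rw [sum_eq_single b]
      · by_cases h : σ b = a
        · simp [h, hb]
        · simp [h]
      · intro j _ hj
        rw [if_neg (fun h => hj h.2)]
      · intro h
        exact absurd (mem_erase.2 ⟨hb, mem_univ _⟩) h

/-- the other monomials are not the monomials of permutations -/
theorem mn_ne {d : ℕ} (u v i : Fin d) (σ : Perm (Fin d)) (h : ¬ (u = v ∧ i = σ v))
    (τ : Perm (Fin d)) : pm τ ≠ mn u v i σ := by
  intro hτ
  have h1 : ∀ a b, pm τ (a, b) = mn u v i σ (a, b) := fun a b => by rw [hτ]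
  by_cases huv : u = v
  · subst huv
    have hi : i ≠ σ u := fun h2 => h ⟨rfl, h2⟩
    -- the column of `σ ⁻¹ i`
    have h2 := h1 i u
    rw [pm_apply, mn_apply] at h2
    have h3 := h1 i (σ.symm i)
    rw [pm_apply, mn_apply] at h3
    have h4 : σ.symm i ≠ u := fun h5 => hi (by rw [← h5, Equiv.apply_symm_apply])
    simp only [true_and, if_true, ne_eq, not_true_eq_false, false_and, if_false, add_zero] at h2
    simp only [Equiv.apply_symm_apply, and_true, true_and] at h3
    rw [if_neg (fun h5 : u = σ.symm i => h4 h5.symm), if_pos h4, zero_add] at h3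
    have h5 : i = τ u := by
      by_contra h6
      rw [if_neg h6] at h2
      exact zero_ne_one h2
    have h6 : i = τ (σ.symm i) := by
      by_contra h6
      rw [if_neg h6] at h3
      omega
    exact h4 (τ.injective (h6.symm.trans h5))
  · have h2 := h1 (τ v) v
    rw [pm_apply, mn_apply, if_pos rfl, if_neg (fun h3 => huv h3.2), if_neg (fun h3 => h3.1 rfl)] at h2
    exact one_ne_zero h2

end Pool.Agent.Helper6.MatSym
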