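import Pool.Agent.Helper6.MatSym.Coeff

set_option autoImplicit false

namespace Pool.Agent.Helper6.MatSym

open Equiv Finset MvPolynomial Pool.Agent.Helper6.SymW

/-- the column sums -/
def cs {d : ℕ} (L : Fin d × Fin d → ℂ) (u : Fin d) : ℂ := ∑ i, L (i, u)

/-- the determinants with one column replaced by ones -/
noncomputable def gd {d : ℕ} (L : Fin d × Fin d → ℂ) (v : Fin d) : ℂ :=
  ((Matrix.of fun i j => L (i, j)).updateCol v fun _ => 1).det

theorem gd_eq {d : ℕ} (L : Fin d × Fin d → ℂ) (v : Fin d) :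
    gd L v = ∑ σ : Perm (Fin d), ((Perm.sign σ : ℤ) : ℂ) * ∏ j ∈ univ.erase v, L (σ j, j) := by
  classical
  unfold gd
  rw [Matrix.det_apply']
  refine sum_congr rfl fun σ _ => ?_
  congr 1
  rw [← mul_prod_erase _ _ (mem_univ v), Matrix.updateCol_self, one_mul]
  refine prod_congr rfl fun j hj => ?_
  rw [Matrix.updateCol_ne (mem_erase.1 hj).1]
  rfl

/-- the functional -/
noncomputable def psi {d : ℕ} (u v : Fin d) (F : MvPolynomial (Fin d × Fin d) ℂ) : ℂ :=
  ∑ i, ∑ σ : Perm (Fin d), ((Perm.sign σ : ℤ) : ℂ) *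
    ((Nat.multinomial univ (mn u v i σ) : ℂ)⁻¹ * coeff (mn u v i σ) F)

theorem multinomial_ne {d : ℕ} (m : Fin d × Fin d → ℕ) :
    (Nat.multinomial univ m : ℂ) ≠ 0 := by
  exact_mod_cast (Nat.multinomial_pos _ _).ne'

theorem psi_pow {d r : ℕ} (u v : Fin d) (l : Fin r → Fin d × Fin d → ℂ) :
    psi u v (∑ t, (∑ p, C (l t p) * X p) ^ d) = ∑ t, cs (l t) u * gd (l t) v := by
  unfold psi
  have h1 : ∀ i σ, (Nat.multinomial univ (mn u v i σ) : ℂ)⁻¹ *
      coeff (mn u v i σ) (∑ t, (∑ p, C (l t p) * X p) ^ d) =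
      ∑ t, l t (i, u) * ∏ j ∈ univ.erase v, l t (σ j, j) := by
    intro i σ
    rw [coeff_sum, mul_sum]
    refine sum_congr rfl fun t _ => ?_
    rw [coeff_pow_gen _ _ (mn_sum u v i σ), mn_prod, ← mul_assoc,
      inv_mul_cancel₀ (multinomial_ne _), one_mul]
  simp_rw [h1, mul_sum]
  have h2 : ∀ t, cs (l t) u * gd (l t) v = ∑ i, ∑ σ : Perm (Fin d),
      ((Perm.sign σ : ℤ) : ℂ) * (l t (i, u) * ∏ j ∈ univ.erase v, l t (σ j, j)) := by
    intro t
    rw [gd_eq, cs, sum_mul_sum]
    refine sum_congr rfl fun i _ => sum_congr rfl fun σ _ => ?_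
    ring
  simp_rw [h2]
  have h3 : ∀ i, ∑ σ : Perm (Fin d), ∑ t, ((Perm.sign σ : ℤ) : ℂ) *
      (l t (i, u) * ∏ j ∈ univ.erase v, l t (σ j, j)) =
      ∑ t, ∑ σ : Perm (Fin d), ((Perm.sign σ : ℤ) : ℂ) *
      (l t (i, u) * ∏ j ∈ univ.erase v, l t (σ j, j)) := fun i => sum_comm
  rw [sum_congr rfl fun i _ => h3 i]
  exact sum_comm

theorem psi_det {d : ℕ} (u v : Fin d) :
    psi u v (Matrix.of fun i j : Fin d =>
      (X (i, j) : MvPolynomial (Fin d × Fin d) ℂ)).det = if u = v then 1 else 0 := by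
  classical
  unfold psi
  by_cases huv : u = v
  · subst huv
    rw [if_pos rfl, sum_comm]
    have h1 : ∀ σ : Perm (Fin d), ∑ i, ((Perm.sign σ : ℤ) : ℂ) *
        ((Nat.multinomial univ (mn u u i σ) : ℂ)⁻¹ * coeff (mn u u i σ)
          (Matrix.of fun i j : Fin d =>
            (X (i, j) : MvPolynomial (Fin d × Fin d) ℂ)).det) = (d.factorial : ℂ)⁻¹ := by
      intro σ
      rw [sum_eq_single (σ u)]
      · rw [mn_self, coeff_det, pm_multinomial]
        rcases Int.units_eq_one_or (Perm.sign σ) with h | h <;> rw [h] <;> simp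
      · intro i _ hi
        rw [coeff_det_zero _ (mn_ne u u i σ fun h => hi h.2), mul_zero, mul_zero]
      · intro h
        exact absurd (mem_univ _) h
    rw [sum_congr rfl fun σ _ => h1 σ, sum_const, card_univ, Fintype.card_perm, Fintype.card_fin,
      nsmul_eq_mul]
    exact mul_inv_cancel₀ (by exact_mod_cast d.factorial_ne_zero)
  · rw [if_neg huv]
    refine sum_eq_zero fun i _ => sum_eq_zero fun σ _ => ?_
    rw [coeff_det_zero _ (mn_ne u v i σ fun h => huv h.1), mul_zero, mul_zero]

/-- permuting rows does not change the column sums -/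
theorem cs_perm {d : ℕ} (L : Fin d × Fin d → ℂ) (π : Perm (Fin d)) (u : Fin d) :
    ∑ i, L (π i, u) = cs L u := Equiv.sum_comp π fun i => L (i, u)

/-- two equal rows -/
theorem gd_eq_zero {d : ℕ} (L : Fin d × Fin d → ℂ) (a b : Fin d) (hab : a ≠ b)
    (h : ∀ j, L (a, j) = L (b, j)) : gd L = 0 := by
  classical
  funext v
  unfold gd
  refine Matrix.det_zero_of_row_eq hab ?_
  funext j
  simp only [Matrix.updateCol_apply, Matrix.of_apply]
  rw [h j]

/-- the counting argument -/
theorem count {d r : ℕ} (H : Subgroup (Perm (Fin d))) (l : Fin r → Fin d × Fin d → ℂ)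
    (hsym : ∀ π ∈ H, ∀ t : Fin r, ∃ u, ∃ c : ℂ, ∀ i j, l t (π i, j) = c * l u (i, j))
    (M : Matrix (Fin d) (Fin d) ℂ) (hM : ∀ u v, M u v = ∑ t, cs (l t) u * gd (l t) v)
    (hdet : M.det ≠ 0) : d * Nat.card H ≤ r := by
  classical
  let T : Type := {t : Fin r // cs (l t) ≠ 0 ∧ gd (l t) ≠ 0}
  let w : T → (Fin d → ℂ) := fun t => cs (l t.1)
  have hspan : Submodule.span ℂ (Set.range w) = ⊤ := by
    rw [eq_top_iff]
    intro x _
    have h1 : M.mulVec (M⁻¹.mulVec x) = x := by
      rw [Matrix.mulVec_mulVec, Matrix.mul_nonsing_inv _ (isUnit_iff_ne_zero.2 hdet),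
        Matrix.one_mulVec]
    rw [← h1]
    have h2 : M.mulVec (M⁻¹.mulVec x) =
        ∑ t, (∑ v, gd (l t) v * (M⁻¹.mulVec x) v) • cs (l t) := by
      funext u
      rw [Matrix.mulVec, dotProduct]
      simp only [hM, sum_mul, Finset.sum_apply, Pi.smul_apply, smul_eq_mul]
      rw [sum_comm]
      refine sum_congr rfl fun t _ => sum_congr rfl fun v _ => ?_
      ring
    rw [h2]
    refine Submodule.sum_mem _ fun t _ => ?_
    by_cases h3 : cs (l t) = 0
    · rw [h3, smul_zero]
      exact Submodule.zero_mem _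
    · by_cases h4 : gd (l t) = 0
      · rw [h4]
        simp
      · exact Submodule.smul_mem _ _ (Submodule.subset_span ⟨⟨t, h3, h4⟩, rfl⟩)
  obtain ⟨κ, a, ha, hsp, hli⟩ := exists_linearIndependent' ℂ w
  rw [hspan] at hsp
  have hκ : Finite κ := hli.finite
  have : Fintype κ := Fintype.ofFinite κ
  have hcard : Fintype.card κ = d := by
    have h1 := Module.finrank_eq_card_basis (Module.Basis.mk hli (by rw [hsp]))
    rw [Module.finrank_fin_fun] at h1
    exact h1.symm
  have hsym' : ∀ (π : H) (t : Fin r), ∃ u, ∃ c : ℂ, ∀ i j, l t (π.1 i, j) = c * l u (i, j) :=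
    fun π t => hsym π.1 π.2 t
  choose f c hf using hsym'
  let Θ : κ × H → Fin r := fun q => f q.2 (a q.1).1
  have hΘ : Function.Injective Θ := by
    rintro ⟨k, π⟩ ⟨k', π'⟩ h
    have h0 : f π (a k).1 = f π' (a k').1 := h
    have h1 := hf π (a k).1
    have h2 := hf π' (a k').1
    rw [← h0] at h2
    set L := l (a k).1 with hL
    set L' := l (a k').1 with hL'
    set U := l (f π (a k).1) with hU
    set c1 := c π (a k).1 with hc1
    set c2 := c π' (a k').1 with hc2
    have h3 : cs L = c1 • cs U := by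
      funext u
      rw [← cs_perm L π.1 u]
      simp only [h1, Pi.smul_apply, smul_eq_mul, cs, mul_sum]
    have h4 : cs L' = c2 • cs U := by
      funext u
      rw [← cs_perm L' π'.1 u]
      simp only [h2, Pi.smul_apply, smul_eq_mul, cs, mul_sum]
    have hc1' : c1 ≠ 0 := by
      intro h5
      rw [h5, zero_smul] at h3
      exact (a k).2.1 h3
    have hc2' : c2 ≠ 0 := by
      intro h5
      rw [h5, zero_smul] at h4
      exact (a k').2.1 h4
    have hkk : k = k' := by
      by_contra hne
      have h5 := Fintype.linearIndependent_iff.1 hli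
        (fun x => if x = k then c2 else if x = k' then -c1 else 0) (by
          have h6 : ∀ x, (if x = k then c2 else if x = k' then -c1 else 0) • (w ∘ a) x =
              (if x = k then c2 • cs L else 0) + (if x = k' then (-c1) • cs L' else 0) := by
            intro x
            by_cases hx : x = k
            · subst hx
              rw [if_pos rfl, if_pos rfl, if_neg hne, add_zero]
              rfl
            · rw [if_neg hx, if_neg hx, zero_add]
              by_cases hx' : x = k'
              · subst hx'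
                rw [if_pos rfl, if_pos rfl]
                rfl
              · rw [if_neg hx', if_neg hx', zero_smul]
          rw [sum_congr rfl fun x _ => h6 x, sum_add_distrib, sum_ite_eq' _ k, sum_ite_eq' _ k',
            if_pos (mem_univ _), if_pos (mem_univ _), h3, h4, smul_smul, smul_smul, ← add_smul]
          rw [show c2 * c1 + -c1 * c2 = 0 by ring, zero_smul])
      have h6 := h5 k
      rw [if_pos rfl] at h6
      exact hc2' h6
    subst hkk
    have hcc : c1 = c2 := by
      have h5 : c1 • cs U = c2 • cs U := by rw [← h3, ← h4]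
      have h6 : cs U ≠ 0 := by
        intro h7
        rw [h7, smul_zero] at h3
        exact (a k).2.1 h3
      exact smul_left_injective ℂ h6 h5
    have hrow : ∀ i j, L (π.1 i, j) = L (π'.1 i, j) := by
      intro i j
      rw [h1, hcc]
      exact (h2 i j).symm
    have hππ : π = π' := by
      by_contra hne
      obtain ⟨i, hi⟩ : ∃ i, π.1 i ≠ π'.1 i := by
        by_contra hcon
        push Not at hcon
        exact hne (Subtype.ext (Equiv.ext hcon))
      exact (a k).2.2 (gd_eq_zero L _ _ hi (hrow i))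
    rw [hππ]
  have h5 := Fintype.card_le_of_injective Θ hΘ
  rw [Fintype.card_prod, hcard, ← Nat.card_eq_fintype_card, Fintype.card_fin] at h5
  exact h5

/-- the lower bound for limits -/
theorem lower {d r : ℕ} (H : Subgroup (Perm (Fin d))) (G : ℕ → MvPolynomial (Fin d × Fin d) ℂ)
    (hG : ∀ m : Fin d × Fin d →₀ ℕ, Filter.Tendsto (fun k => coeff m (G k)) Filter.atTop
      (nhds (coeff m (Matrix.of fun i j : Fin d =>
        (X (i, j) : MvPolynomial (Fin d × Fin d) ℂ)).det)))
    (hr : ∀ k, ∃ f : Fin r → Fin d × Fin d → ℂ,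
      G k = ∑ t, (∑ p, C (f t p) * X p) ^ d ∧
      ∀ π ∈ H, ∀ t : Fin r, ∃ u, ∃ c : ℂ, ∀ i j, f t (π i, j) = c * f u (i, j)) :
    d * Nat.card H ≤ r := by
  classical
  have h1 : Filter.Tendsto (fun k => (Matrix.of fun u v => psi u v (G k)).det) Filter.atTop
      (nhds (Matrix.of fun u v : Fin d => psi u v (Matrix.of fun i j : Fin d =>
        (X (i, j) : MvPolynomial (Fin d × Fin d) ℂ)).det).det) := by
    have h2 : Continuous fun M : Matrix (Fin d) (Fin d) ℂ => M.det := continuous_id.matrix_det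
    refine (h2.tendsto _).comp ?_
    refine tendsto_pi_nhds.2 fun u => tendsto_pi_nhds.2 fun v => ?_
    show Filter.Tendsto (fun k => psi u v (G k)) Filter.atTop _
    unfold psi
    exact tendsto_finsetSum _ fun i _ => tendsto_finsetSum _ fun σ _ =>
      ((hG _).const_mul _).const_mul _
  have h3 : (Matrix.of fun u v : Fin d => psi u v (Matrix.of fun i j : Fin d =>
        (X (i, j) : MvPolynomial (Fin d × Fin d) ℂ)).det) = 1 := by
    ext u v
    rw [Matrix.of_apply, psi_det, Matrix.one_apply]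
  rw [h3, Matrix.det_one] at h1
  obtain ⟨k, hk⟩ := (h1.eventually_ne one_ne_zero).exists
  obtain ⟨f, hf, hsym⟩ := hr k
  refine count H f hsym _ (fun u v => ?_) hk
  rw [Matrix.of_apply, hf, psi_pow]

end Pool.Agent.Helper6.MatSym
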