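import Mathlib

set_option autoImplicit false

namespace Pool.Agent.Helper6.MatSym

open Equiv Finset

/-- the weight of the column `j` for the index `p` -/
noncomputable def wt {d : ℕ} (x : ℂ) (p j : Fin d) : ℂ := if j = p then x else 1

/-- the sum over `p` of the weights of a map -/
theorem wt_sum_zero {d : ℕ} (x : ℂ) (hx : x ^ 2 + ((d : ℂ) - 2) * x + 1 = 0) (f : Fin d → Fin d)
    (b : Fin d) (hb : ∀ s, f s ≠ b) (hb' : ∀ p, p ≠ b → ∃ s, f s = p) :
    ∑ p, ∏ s, wt x p (f s) = 0 := by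
  classical
  have h1 : ∀ p, ∏ s, wt x p (f s) = x ^ #{s : Fin d | f s = p} := by
    intro p
    unfold wt
    rw [prod_ite]
    simp
  have h2 : ∑ p, #{s : Fin d | f s = p} = d := by
    have := card_eq_sum_card_fiberwise (s := (univ : Finset (Fin d))) (t := univ) (f := f)
      (fun _ _ => mem_coe.2 (mem_univ _))
    rw [card_univ, Fintype.card_fin] at this
    exact this.symm
  have h3 : #{s : Fin d | f s = b} = 0 := by
    rw [card_eq_zero, filter_eq_empty_iff]
    exact fun s _ => hb s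
  have h4 : ∀ p, p ≠ b → 1 ≤ #{s : Fin d | f s = p} := by
    intro p hp
    obtain ⟨s, hs⟩ := hb' p hp
    exact card_pos.2 ⟨s, by simp [hs]⟩
  have h5 : ∑ p ∈ univ.erase b, #{s : Fin d | f s = p} = d := by
    have h2' := h2
    rw [← add_sum_erase _ _ (mem_univ b), h3, zero_add] at h2'
    exact h2'
  have h6 : ∑ p ∈ univ.erase b, (#{s : Fin d | f s = p} - 1) = 1 := by
    have h7 : ∑ p ∈ univ.erase b, (#{s : Fin d | f s = p} - 1) +
        ∑ p ∈ univ.erase b, 1 = ∑ p ∈ univ.erase b, #{s : Fin d | f s = p} := by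
      rw [← sum_add_distrib]
      refine sum_congr rfl fun p hp => ?_
      have := h4 p (mem_erase.1 hp).1
      omega
    rw [h5, sum_const, card_erase_of_mem (mem_univ _), card_univ, Fintype.card_fin, smul_eq_mul,
      mul_one] at h7
    have : 0 < d := b.pos
    omega
  obtain ⟨a, ha, ha1⟩ : ∃ a ∈ univ.erase b, #{s : Fin d | f s = a} - 1 ≠ 0 := by
    by_contra hcon
    push Not at hcon
    rw [sum_eq_zero hcon] at h6
    exact zero_ne_one h6
  have h8 := add_sum_erase (univ.erase b) (fun p => #{s : Fin d | f s = p} - 1) ha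
  rw [h6] at h8
  have h9 : #{s : Fin d | f s = a} = 2 := by
    have := h4 a (mem_erase.1 ha).1
    omega
  have h10 : ∑ p ∈ (univ.erase b).erase a, (#{s : Fin d | f s = p} - 1) = 0 := by
    omega
  have h11 : ∀ p ∈ (univ.erase b).erase a, #{s : Fin d | f s = p} = 1 := by
    intro p hp
    have h12 := (sum_eq_zero_iff.1 h10) p hp
    have h13 := h4 p (mem_erase.1 (mem_erase.1 hp).2).1
    omega
  rw [sum_congr rfl fun p _ => h1 p, ← add_sum_erase _ _ (mem_univ b), h3,
    ← add_sum_erase (univ.erase b) _ ha, h9,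
    sum_congr rfl fun p hp => by rw [h11 p hp, pow_one], sum_const,
    card_erase_of_mem ha, card_erase_of_mem (mem_univ _), card_univ, Fintype.card_fin,
    nsmul_eq_mul]
  have h14 : 2 ≤ d := by
    have h15 : 1 ≤ #(univ.erase b) := card_pos.2 ⟨a, ha⟩
    rw [card_erase_of_mem (mem_univ _), card_univ, Fintype.card_fin] at h15
    omega
  have h16 : ((d - 1 - 1 : ℕ) : ℂ) = (d : ℂ) - 2 := by
    rw [Nat.sub_sub, Nat.cast_sub h14]
    norm_num
  rw [h16, pow_zero]
  linear_combination hx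

/-- the alternating sum vanishes if two columns are missed -/
theorem alt_sum_zero {d : ℕ} (A : Matrix (Fin d) (Fin d) ℂ) (f : Fin d → Fin d)
    (a b : Fin d) (hab : a ≠ b) (ha : ∀ s, f s ≠ a) (hb : ∀ s, f s ≠ b) :
    ∑ σ : Perm (Fin d), ((Perm.sign σ : ℤ) : ℂ) * ∏ s, A (σ (f s)) (f s) = 0 := by
  classical
  refine sum_involution (fun σ _ => σ * swap a b) ?_ ?_ ?_ ?_
  · intro σ _
    have h1 : ∀ s, (σ * swap a b) (f s) = σ (f s) := by
      intro s
      rw [Perm.mul_apply, swap_apply_of_ne_of_ne (ha s) (hb s)]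
    simp only [h1]
    rw [Perm.sign_mul, Perm.sign_swap hab]
    push_cast
    ring
  · intro σ _ _ h
    have h1 : swap a b = 1 := mul_left_cancel (h.trans (mul_one σ).symm)
    exact hab (swap_eq_one_iff.1 h1)
  · intro σ _
    exact mem_univ _
  · intro σ _
    rw [mul_assoc, swap_mul_self, mul_one]

/-- the decomposition, as an identity of functions -/
theorem identity {d : ℕ} (x : ℂ) (hx : x ^ 2 + ((d : ℂ) - 2) * x + 1 = 0)
    (A : Matrix (Fin d) (Fin d) ℂ) :
    ∑ p : Fin d, ∑ σ : Perm (Fin d), ((Perm.sign σ : ℤ) : ℂ) *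
      (∑ j, wt x p j * A (σ j) j) ^ d = (d * d.factorial * x) * A.det := by
  classical
  have h1 : ∀ (p : Fin d) (σ : Perm (Fin d)), (∑ j, wt x p j * A (σ j) j) ^ d =
      ∑ f : Fin d → Fin d, (∏ s, wt x p (f s)) * ∏ s, A (σ (f s)) (f s) := by
    intro p σ
    have h2 : (∑ j, wt x p j * A (σ j) j) ^ d = ∏ _k : Fin d, ∑ j, wt x p j * A (σ j) j := by
      simp
    rw [h2, Finset.prod_univ_sum, Fintype.piFinset_univ]
    refine Finset.sum_congr rfl fun f _ => ?_
    rw [Finset.prod_mul_distrib]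
  have h2 : ∑ p : Fin d, ∑ σ : Perm (Fin d), ((Perm.sign σ : ℤ) : ℂ) *
      (∑ j, wt x p j * A (σ j) j) ^ d =
      ∑ f : Fin d → Fin d, (∑ p, ∏ s, wt x p (f s)) *
        ∑ σ : Perm (Fin d), ((Perm.sign σ : ℤ) : ℂ) * ∏ s, A (σ (f s)) (f s) := by
    simp_rw [h1, mul_sum]
    have h3 : ∀ p : Fin d, ∑ σ : Perm (Fin d), ∑ f : Fin d → Fin d, ((Perm.sign σ : ℤ) : ℂ) *
        ((∏ s, wt x p (f s)) * ∏ s, A (σ (f s)) (f s)) =
        ∑ f : Fin d → Fin d, ∑ σ : Perm (Fin d), ((Perm.sign σ : ℤ) : ℂ) *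
        ((∏ s, wt x p (f s)) * ∏ s, A (σ (f s)) (f s)) := fun p => sum_comm
    rw [sum_congr rfl fun p _ => h3 p, sum_comm]
    refine sum_congr rfl fun f _ => ?_
    simp_rw [sum_mul]
    rw [sum_comm]
    refine sum_congr rfl fun σ _ => sum_congr rfl fun p _ => ?_
    ring
  rw [h2]
  have h4 : ∀ f : Fin d → Fin d, (∑ p, ∏ s, wt x p (f s)) *
        ∑ σ : Perm (Fin d), ((Perm.sign σ : ℤ) : ℂ) * ∏ s, A (σ (f s)) (f s) =
      if Function.Bijective f then (d * x) * A.det else 0 := by
    intro f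
    split_ifs with hf
    · congr 1
      · have h5 : ∀ p : Fin d, ∏ s, wt x p (f s) = x := by
          intro p
          rw [Function.Bijective.prod_comp hf (fun j => wt x p j)]
          unfold wt
          rw [prod_ite_eq' univ p, if_pos (mem_univ _)]
        rw [sum_congr rfl fun p _ => h5 p]
        simp
      · rw [Matrix.det_apply']
        refine sum_congr rfl fun σ _ => ?_
        rw [Function.Bijective.prod_comp hf (fun j => A (σ j) j)]
    · have hs : ¬ Function.Surjective f := fun hs => hf (Finite.surjective_iff_bijective.1 hs)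
      rw [Function.Surjective] at hs
      push Not at hs
      obtain ⟨b, hb⟩ := hs
      by_cases h5 : ∃ a, a ≠ b ∧ ∀ s, f s ≠ a
      · obtain ⟨a, hab, ha⟩ := h5
        rw [alt_sum_zero A f a b hab ha hb, mul_zero]
      · push Not at h5
        rw [wt_sum_zero x hx f b hb h5, zero_mul]
  rw [sum_congr rfl fun f _ => h4 f]
  have h5 : ∑ f : Fin d → Fin d, (if Function.Bijective f then (d * x) * A.det else 0) =
      ∑ f ∈ (univ : Finset (Fin d → Fin d)) with Function.Bijective f, (d * x) * A.det := by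
    rw [Finset.sum_filter]
  rw [h5]
  have h6 : ∑ f ∈ (univ : Finset (Fin d → Fin d)) with Function.Bijective f, (d * x) * A.det =
      ∑ σ : Perm (Fin d), (d * x) * A.det :=
    Finset.sum_bij (fun p h => Equiv.ofBijective p (mem_filter.1 h).2) (fun _ _ => mem_univ _)
      (fun _ _ _ _ h => by injection h)
      (fun b _ => ⟨b, mem_filter.2 ⟨mem_univ _, b.bijective⟩, Equiv.coe_fn_injective rfl⟩)
      (fun _ _ => rfl)
  rw [h6, sum_const, card_univ, Fintype.card_perm, Fintype.card_fin, nsmul_eq_mul]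
  ring

/-- the decomposition of length `d * d!`, stable under permutations of the rows and of the
columns -/
theorem exists_dec (d : ℕ) (hd : 1 ≤ d) :
    ∃ f : Fin (d * d.factorial) → Fin d × Fin d → ℂ,
      (Matrix.of fun i j : Fin d => (MvPolynomial.X (i, j) : MvPolynomial (Fin d × Fin d) ℂ)).det =
        ∑ t, (∑ p, MvPolynomial.C (f t p) * MvPolynomial.X p) ^ d ∧
      ∀ (π ρ : Perm (Fin d)) t, ∃ u, ∃ c : ℂ, ∀ i j, f t (π i, ρ j) = c * f u (i, j) := by
  classical
  obtain ⟨x, hx⟩ : ∃ x : ℂ, x ^ 2 + ((d : ℂ) - 2) * x + 1 = 0 := by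
    obtain ⟨z, hz⟩ := IsAlgClosed.exists_pow_nat_eq (((d : ℂ) - 2) ^ 2 / 4 - 1) (n := 2) (by norm_num)
    refine ⟨z - ((d : ℂ) - 2) / 2, ?_⟩
    linear_combination hz
  have hx0 : x ≠ 0 := by
    rintro rfl
    norm_num at hx
  have hroot : ∀ c : ℂ, ∃ z : ℂ, z ^ d = c := fun c => IsAlgClosed.exists_pow_nat_eq _ (by omega)
  choose rt hrt using hroot
  have hN : (d * d.factorial * x : ℂ) ≠ 0 := by
    refine mul_ne_zero (mul_ne_zero ?_ ?_) hx0
    · exact_mod_cast (by omega : d ≠ 0)
    · exact_mod_cast d.factorial_ne_zero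
  let cf : Fin d × Perm (Fin d) → ℂ := fun q => (d * d.factorial * x)⁻¹ *
    ((Perm.sign q.2 : ℤ) : ℂ)
  have hcf : ∀ q, rt (cf q) ≠ 0 := by
    intro q h
    have h1 := hrt (cf q)
    rw [h, zero_pow (by omega)] at h1
    have h2 : cf q ≠ 0 := by
      refine mul_ne_zero (inv_ne_zero hN) ?_
      rcases Int.units_eq_one_or (Perm.sign q.2) with h | h <;> rw [h] <;> simp
    exact h2 h1.symm
  let mt : Fin d × Perm (Fin d) → Fin d → Fin d → ℂ := fun q i j =>
    if i = q.2 j then wt x q.1 j else 0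
  have hcard : Fintype.card (Fin (d * d.factorial)) = Fintype.card (Fin d × Perm (Fin d)) := by
    rw [Fintype.card_prod, Fintype.card_perm, Fintype.card_fin, Fintype.card_fin]
  let E := Fintype.equivOfCardEq hcard
  refine ⟨fun t p => rt (cf (E t)) * mt (E t) p.1 p.2, ?_, ?_⟩
  · apply MvPolynomial.funext
    intro y
    rw [RingHom.map_det, map_sum]
    have hM : (MvPolynomial.eval y).mapMatrix (Matrix.of fun i j : Fin d =>
        (MvPolynomial.X (i, j) : MvPolynomial (Fin d × Fin d) ℂ)) =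
        Matrix.of fun i j : Fin d => y (i, j) := by
      ext i j
      simp
    rw [hM]
    have h1 : (Matrix.of fun i j : Fin d => y (i, j)).det = ∑ q : Fin d × Perm (Fin d),
        cf q * (∑ j, wt x q.1 j * y (q.2 j, j)) ^ d := by
      have h2 := identity x hx (Matrix.of fun i j : Fin d => y (i, j))
      have h3 : (Matrix.of fun i j : Fin d => y (i, j)).det = (d * d.factorial * x)⁻¹ *
          ((d * d.factorial * x) * (Matrix.of fun i j : Fin d => y (i, j)).det) := by
        rw [← mul_assoc, inv_mul_cancel₀ hN, one_mul]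
      rw [h3, ← h2, Fintype.sum_prod_type, mul_sum]
      refine sum_congr rfl fun p _ => ?_
      rw [mul_sum]
      refine sum_congr rfl fun σ _ => ?_
      simp only [cf, Matrix.of_apply]
      ring
    rw [h1, ← Equiv.sum_comp E]
    refine sum_congr rfl fun t _ => ?_
    simp only [map_pow, map_sum, map_mul, MvPolynomial.eval_C, MvPolynomial.eval_X]
    conv_lhs => rw [← hrt (cf (E t))]
    rw [← mul_pow]
    congr 1
    rw [Fintype.sum_prod_type_right, Finset.mul_sum]
    refine Finset.sum_congr rfl fun j _ => ?_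
    rw [Finset.sum_eq_single ((E t).2 j)]
    · simp only [mt, if_true]
      ring
    · intro i _ hi
      simp only [mt, if_neg hi]
      ring
    · intro h
      exact absurd (mem_univ _) h
  · intro π ρ t
    obtain ⟨u, hu⟩ := E.surjective (ρ.symm (E t).1, π⁻¹ * (E t).2 * ρ)
    refine ⟨u, rt (cf (E t)) * (rt (cf (E u)))⁻¹, fun i j => ?_⟩
    have h1 : mt (E t) (π i) (ρ j) = mt (E u) i j := by
      simp only [mt, hu, wt]
      have h2 : (π i = (E t).2 (ρ j)) ↔ (i = (π⁻¹ * (E t).2 * ρ) j) := by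
        rw [Perm.mul_apply, Perm.mul_apply, Perm.eq_inv_iff_eq]
      have h3 : (ρ j = (E t).1) ↔ (j = ρ.symm (E t).1) := by
        rw [Equiv.eq_symm_apply]
      simp only [h2, h3]
    show rt (cf (E t)) * mt (E t) (π i) (ρ j) = rt (cf (E t)) * (rt (cf (E u)))⁻¹ *
      (rt (cf (E u)) * mt (E u) i j)
    rw [h1, mul_assoc, inv_mul_cancel_left₀ (hcf (E u))]

end Pool.Agent.Helper6.MatSym
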